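import Pool.Agent.N681.AI.B8
import Pool.Agent.Results.MP_39d40e_nt.PowerRate

/-!
# Leigh's maps of coprime type with `Λ < 1`: almost invariant sets, entrance laws, the law of the minimum

`T` of coprime type (`gcd(m_i, d) = 1`) with `∏ |m_i / d| < 1`, not all `|m_i|` equal. Every set which is
invariant up to the beginnings of the trajectories has natural densities. So the point at which a
trajectory enters a given finite set has a limit law, and the minimum of `|T^k x|` has a limit law, which is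
a probability distribution on the integers `≥ 0` with tails `O(y ^ (-c))`.
-/

set_option autoImplicit false

namespace Pool.Agent.Results.MP_39d40e_nt.EntranceAndMinimumLaws

open Finset Filter Topology
open Pool.Agent.H319R3.GC Pool.Agent.N681.AI

/-- The generalised Collatz map `T(x) = (m_i x - r_i) / d` for `x ≡ i mod d`, `0 ≤ i < d`. -/
def T (d : ℕ) (m r : ℕ → ℤ) (x : ℤ) : ℤ := (m (x % d).toNat * x - r (x % d).toNat) / d

/-- `S` has natural density `δ` on the side `σ` (`σ = 1`: positive integers, `σ = -1`: negative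
integers): `#{x ∈ S : 1 ≤ σ x ≤ N} / N → δ`. -/
def HasDensity (S : Set ℤ) (σ : ℤ) (δ : ℝ) : Prop :=
  Tendsto (fun N : ℕ => (Set.ncard {x : ℤ | x ∈ S ∧ 1 ≤ σ * x ∧ σ * x ≤ N} : ℝ) / N) atTop (𝓝 δ)

/-- `S` is almost invariant: `x ∈ S ↔ T^k x ∈ S` for all `k` and all `x` with `|x| ≥ c₀ d^k`, for some
constant `c₀`. -/
def AlmostInvariant (d : ℕ) (m r : ℕ → ℤ) (S : Set ℤ) : Prop :=
  ∃ c₀ : ℝ, ∀ (k : ℕ) (x : ℤ), c₀ * (d : ℝ) ^ k ≤ |(x : ℝ)| → (x ∈ S ↔ (T d m r)^[k] x ∈ S)

/-- the integers whose trajectory enters `F` at the point `a`: the first term in `F` is `a` -/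
def Enters (d : ℕ) (m r : ℕ → ℤ) (F : Set ℤ) (a : ℤ) : Set ℤ :=
  {x : ℤ | ∃ k : ℕ, (T d m r)^[k] x = a ∧ ∀ j < k, (T d m r)^[j] x ∉ F}

/-- the integers whose trajectory has minimum modulus in `A`: `min |T^k x| ∈ A` -/
def MinIn (d : ℕ) (m r : ℕ → ℤ) (A : Set ℤ) : Set ℤ :=
  {x : ℤ | ∃ e ∈ A, (∀ k : ℕ, e ≤ |(T d m r)^[k] x|) ∧ ∃ k : ℕ, |(T d m r)^[k] x| = e}

theorem adm {d : ℕ} (hd : 2 ≤ d) {m r : ℕ → ℤ} (hm : ∀ i < d, IsCoprime (m i) (d : ℤ))
    (hr : ∀ i < d, r i ≡ i * m i [ZMOD d]) (hL : ∏ i ∈ range d, |(m i : ℝ) / d| < 1)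
    (hne : ∃ i < d, ∃ j < d, |m i| ≠ |m j|) : Adm d m r := by
  obtain ⟨i, hi, j, hj, hij0⟩ := hne
  have hij : (m i).natAbs ≠ (m j).natAbs := by
    intro hcon
    apply hij0
    rw [Int.abs_eq_natAbs, Int.abs_eq_natAbs, hcon]
  have hd0 : (0 : ℝ) < d := by positivity
  have hadm : ∀ i < d, (d : ℤ) ∣ m i * i - r i := by
    intro i hi
    have h1 := (hr i hi).dvd
    rwa [mul_comm (i : ℤ)] at h1
  have hc : ∏ i ∈ range d, (m i).natAbs < d ^ d := by
    have h1 : ∏ i ∈ range d, |(m i : ℝ) / d| = (∏ i ∈ range d, |(m i : ℝ)|) / (d : ℝ) ^ d := by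
      simp only [abs_div, abs_of_pos hd0]
      rw [Finset.prod_div_distrib, Finset.prod_const, card_range]
    rw [h1, div_lt_one (by positivity)] at hL
    have h2 : ((∏ i ∈ range d, (m i).natAbs : ℕ) : ℝ) = ∏ i ∈ range d, |(m i : ℝ)| := by
      push_cast
      refine Finset.prod_congr rfl fun i _ => ?_
      rw [Nat.cast_natAbs]
      push_cast
      rfl
    have h3 : ((∏ i ∈ range d, (m i).natAbs : ℕ) : ℝ) < ((d ^ d : ℕ) : ℝ) := by
      rw [h2]; push_cast; exact hL
    exact_mod_cast h3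
  have hnz : ∀ i ∈ range d, 1 ≤ (m i).natAbs := by
    intro i hi
    rcases Nat.eq_zero_or_pos (m i).natAbs with h0 | h0
    · exfalso
      have h1 := hm i (mem_range.1 hi)
      rw [Int.natAbs_eq_zero.1 h0] at h1
      have h2 := isCoprime_zero_left.1 h1
      have h3 := Int.isUnit_iff.1 h2
      omega
    · exact h0
  have hbig : 2 ≤ ∏ i ∈ range d, (m i).natAbs := by
    have h1 : 2 ≤ (m i).natAbs ∨ 2 ≤ (m j).natAbs := by
      have h2 := hnz i (mem_range.2 hi)
      have h3 := hnz j (mem_range.2 hj)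
      omega
    have h4 : ∀ l < d, (m l).natAbs ≤ ∏ i ∈ range d, (m i).natAbs := by
      intro l hl
      exact Nat.le_of_dvd (Finset.prod_pos fun i hi => hnz i hi)
        (Finset.dvd_prod_of_mem _ (mem_range.2 hl))
    rcases h1 with h1 | h1
    · exact h1.trans (h4 i hi)
    · exact h1.trans (h4 j hj)
  exact ⟨hd, hm, hadm, hc, hbig⟩

/-- if all multipliers are smaller than `d` then every trajectory enters `[-R, R]` -/
theorem enters_small {d : ℕ} {m r : ℕ → ℤ} (h : Adm d m r) (hb : ¬ ∃ i < d, (d : ℤ) < |m i|)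
    {R : ℕ} (hR : ∀ i < d, |r i| ≤ (R : ℤ)) : ∀ (v : ℕ) (x : ℤ), x.natAbs ≤ v →
      ∃ k : ℕ, |(Tm d m r)^[k] x| ≤ (R : ℤ) := by
  have hd := h.two_le
  intro v
  induction v with
  | zero =>
    intro x hx
    refine ⟨0, ?_⟩
    have : x = 0 := by omega
    rw [this]
    simp
  | succ v ih =>
    intro x hx
    by_cases hxR : |x| ≤ (R : ℤ)
    · exact ⟨0, hxR⟩
    · push Not at hxR
      have h1 := Pool.Agent.W39.Tm_eq h x
      obtain ⟨h2, h3⟩ := Pool.Agent.W39.toNat_mod hd x
      set i := (x % (d : ℤ)).toNat with hi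
      have h4 : |m i| ≤ (d : ℤ) := by
        by_contra hcon
        exact hb ⟨i, h3, not_le.1 hcon⟩
      have h5 : |m i| ≠ (d : ℤ) := by
        intro h6
        have h7 := h.cop i h3
        have h8 : (d : ℤ) ∣ m i := by
          rw [← dvd_abs, h6]
        have h9 := h7.symm.isUnit_of_dvd' dvd_rfl h8
        have := Int.isUnit_iff.1 h9
        omega
      have h6 : |m i| ≤ (d : ℤ) - 1 := by omega
      have h7 : (d : ℤ) * |Tm d m r x| ≤ ((d : ℤ) - 1) * |x| + R := by
        have h8 : (d : ℤ) * |Tm d m r x| = |m i * x - r i| := by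
          rw [← h1, abs_mul, Int.abs_natCast]
        rw [h8]
        refine (abs_sub _ _).trans ?_
        rw [abs_mul]
        exact add_le_add (mul_le_mul_of_nonneg_right h6 (abs_nonneg _)) (hR i h3)
      have h8 : |Tm d m r x| < |x| := by
        by_contra hcon
        push Not at hcon
        have hd0 : (0 : ℤ) < d := by exact_mod_cast (by omega : 0 < d)
        have h9 : (d : ℤ) * |x| ≤ (d : ℤ) * |Tm d m r x| := mul_le_mul_of_nonneg_left hcon hd0.le
        have h10 : (d : ℤ) * |x| ≤ ((d : ℤ) - 1) * |x| + R := h9.trans h7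
        have h11 : |x| ≤ R := by linarith
        omega
      have h9 : (Tm d m r x).natAbs ≤ v := by
        rw [Int.abs_eq_natAbs, Int.abs_eq_natAbs] at h8
        omega
      obtain ⟨k, hk⟩ := ih _ h9
      exact ⟨k + 1, by rw [Function.iterate_succ_apply]; exact hk⟩

/-- **Theorem.** Let `gcd(m_i, d) = 1` for all `i`, `∏ |m_i / d| < 1` and not all `|m_i|` equal. There is
`c > 0`, depending only on `d` and the `m_i`, and larger than `1 - log_d (∑ |m_i / d| ^ s)` for every real
`s ≥ 0` if some `|m_i| > d`, such that for all admissible `r_i`: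
(1) every almost invariant set has natural densities on both sides, and they are equal if some `m_i < 0`;
(2) for every finite set `F` of integers and `a ∈ F` the integers whose trajectory enters `F` at `a` have
natural densities on both sides, equal if some `m_i < 0`;
(3) there are probability distributions `D 1` and `D (-1)` on the integers `e ≥ 0` such that for EVERY set
`A` of integers `≥ 0` the integers whose trajectory has minimum modulus in `A` have natural density
`∑ D σ e` (`e ∈ A`) on the side `σ = 1` and `σ = -1`; `D 1 = D (-1)` if some `m_i < 0`; and the sum of the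
`D σ e` over the elements `e > y` of any finite set is at most `C y^(-c)` for `y ≥ 1`, with a constant
`C`. -/
theorem result (d : ℕ) (hd : 2 ≤ d) (m : ℕ → ℤ) (hm : ∀ i < d, IsCoprime (m i) (d : ℤ))
    (hL : ∏ i ∈ range d, |(m i : ℝ) / d| < 1) (hne : ∃ i < d, ∃ j < d, |m i| ≠ |m j|) :
    ∃ c : ℝ, 0 < c ∧
      ((∃ i < d, (d : ℤ) < |m i|) → ∀ s : ℝ, 0 ≤ s →
        1 - Real.log (∑ i ∈ range d, |(m i : ℝ) / d| ^ s) / Real.log d < c) ∧
      ∀ r : ℕ → ℤ, (∀ i < d, r i ≡ i * m i [ZMOD d]) →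
        (∀ S : Set ℤ, AlmostInvariant d m r S → ∃ a b : ℝ, HasDensity S 1 a ∧ HasDensity S (-1) b ∧
          ((∃ i < d, m i < 0) → a = b)) ∧
        (∀ F : Set ℤ, F.Finite → ∀ a ∈ F, ∃ p q : ℝ, HasDensity (Enters d m r F a) 1 p ∧
          HasDensity (Enters d m r F a) (-1) q ∧ ((∃ i < d, m i < 0) → p = q)) ∧
        ∃ (D : ℤ → ℤ → ℝ) (C : ℝ), 0 < C ∧ ((∃ i < d, m i < 0) → D 1 = D (-1)) ∧
          ∀ σ : ℤ, (σ = 1 ∨ σ = -1) →
            (∀ e, 0 ≤ D σ e) ∧ (∀ e, e < 0 → D σ e = 0) ∧ HasSum (D σ) 1 ∧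
            (∀ A : Set ℤ, (∀ e ∈ A, 0 ≤ e) → HasDensity (MinIn d m r A) σ (∑' e : A, D σ e)) ∧
            (∀ y : ℝ, 1 ≤ y → ∀ S : Finset ℤ, (∀ e ∈ S, y < (e : ℝ)) →
              ∑ e ∈ S, D σ e ≤ C / y ^ c) := by
  classical
  -- the rate
  have hrate : ∃ c : ℝ, 0 < c ∧
      ((∃ i < d, (d : ℤ) < |m i|) → ∀ s : ℝ, 0 ≤ s →
        1 - Real.log (∑ i ∈ range d, |(m i : ℝ) / d| ^ s) / Real.log d < c) ∧
      ∀ r : ℕ → ℤ, (∀ i < d, r i ≡ i * m i [ZMOD d]) → ∃ C : ℝ, 0 < C ∧ ∀ X y : ℝ, 1 ≤ X → 1 ≤ y →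
      (Set.ncard {x : ℤ | |(x : ℝ)| ≤ X ∧ ∀ n : ℕ, y < |(((Tm d m r)^[n] x : ℤ) : ℝ)|} : ℝ) ≤
        C * X / y ^ c := by
    by_cases hb : ∃ i < d, (d : ℤ) < |m i|
    · obtain ⟨c, h1, h2, h3⟩ := PowerRate.result d hd m hm hL hb
      exact ⟨c, h1, fun _ => h2, h3⟩
    · refine ⟨1, one_pos, fun h => absurd h hb, fun r hr => ?_⟩
      have hA := adm hd hm hr hL hne
      obtain ⟨R, hR⟩ : ∃ R : ℕ, ∀ i < d, |r i| ≤ (R : ℤ) := by
        refine ⟨∑ i ∈ range d, (r i).natAbs, fun i hi => ?_⟩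
        rw [Int.abs_eq_natAbs]
        exact_mod_cast Finset.single_le_sum (f := fun i => (r i).natAbs) (fun _ _ => Nat.zero_le _)
          (mem_range.2 hi)
      refine ⟨3 * (R + 1), by positivity, fun X y hX hy => ?_⟩
      rw [Real.rpow_one]
      have hy0 : 0 < y := by linarith
      rw [le_div_iff₀ hy0]
      by_cases hyR : (R : ℝ) ≤ y
      · have he : {x : ℤ | |(x : ℝ)| ≤ X ∧ ∀ n : ℕ, y < |(((Tm d m r)^[n] x : ℤ) : ℝ)|} = ∅ := by
          ext x
          simp only [Set.mem_ofPred_eq, Set.mem_empty_iff_false, iff_false, not_and, not_forall,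
            not_lt]
          intro _
          obtain ⟨k, hk⟩ := enters_small hA hb hR _ x le_rfl
          refine ⟨k, le_trans ?_ hyR⟩
          rw [← Int.cast_abs]
          exact_mod_cast hk
        rw [he]
        simp only [Set.ncard_empty, Nat.cast_zero, zero_mul]
        positivity
      · push Not at hyR
        have h1 : (Set.ncard {x : ℤ | |(x : ℝ)| ≤ X ∧ ∀ n : ℕ,
            y < |(((Tm d m r)^[n] x : ℤ) : ℝ)|} : ℝ) ≤ 2 * X + 1 := by
          have h2 : {x : ℤ | |(x : ℝ)| ≤ X ∧ ∀ n : ℕ, y < |(((Tm d m r)^[n] x : ℤ) : ℝ)|} ⊆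
              ((Finset.Icc (-⌊X⌋) ⌊X⌋ : Finset ℤ) : Set ℤ) := by
            rintro x ⟨hx, -⟩
            rw [Finset.mem_coe, Finset.mem_Icc]
            have h3 := abs_le.1 hx
            constructor
            · have h4 : ((-x : ℤ) : ℝ) ≤ X := by push_cast; linarith
              have := Int.le_floor.2 h4
              omega
            · exact Int.le_floor.2 h3.2
          have h3 := Set.ncard_le_ncard h2 (Finset.finite_toSet _)
          rw [Set.ncard_coe_finset, Int.card_Icc] at h3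
          have hX0 : 0 ≤ ⌊X⌋ := Int.floor_nonneg.2 (by linarith)
          have h4 : (((⌊X⌋ + 1 - -⌊X⌋).toNat : ℕ) : ℤ) = 2 * ⌊X⌋ + 1 := by
            rw [Int.toNat_of_nonneg (by omega)]
            ring
          have h5 : (((⌊X⌋ + 1 - -⌊X⌋).toNat : ℕ) : ℝ) = 2 * (⌊X⌋ : ℝ) + 1 := by exact_mod_cast h4
          have h6 : (Set.ncard {x : ℤ | |(x : ℝ)| ≤ X ∧ ∀ n : ℕ,
            y < |(((Tm d m r)^[n] x : ℤ) : ℝ)|} : ℝ) ≤ (((⌊X⌋ + 1 - -⌊X⌋).toNat : ℕ) : ℝ) := by
            exact_mod_cast h3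
          have h7 : (⌊X⌋ : ℝ) ≤ X := Int.floor_le X
          linarith
        have h2 : (2 * X + 1) * y ≤ 3 * X * (R + 1) := by
          have h3 : y ≤ R + 1 := by linarith
          have h4 : 2 * X + 1 ≤ 3 * X := by linarith
          exact mul_le_mul h4 h3 hy0.le (by linarith)
        calc _ ≤ (2 * X + 1) * y := mul_le_mul_of_nonneg_right h1 hy0.le
          _ ≤ 3 * X * (R + 1) := h2
          _ = 3 * (R + 1) * X := by ring
  obtain ⟨c, hc0, hcs, hrate⟩ := hrate
  refine ⟨c, hc0, hcs, fun r hr => ?_⟩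
  obtain ⟨C, hC, hcap⟩ := hrate r hr
  have hA := adm hd hm hr hL hne
  obtain ⟨i, hi, j, hj, hij⟩ := hne
  have hij' : (m i).natAbs ≠ (m j).natAbs := by
    intro hcon
    apply hij
    rw [Int.abs_eq_natAbs, Int.abs_eq_natAbs, hcon]
  have hdens : ∀ S : Set ℤ, AlmostInvariant d m r S → ∃ a b : ℝ, HasDensity S 1 a ∧
      HasDensity S (-1) b ∧ ((∃ i < d, m i < 0) → a = b) := by
    rintro S ⟨c₀, hS⟩
    exact hasDs_of_ainv hA hi hj hij' (c₀ := c₀) hS
  refine ⟨hdens, ?_, ?_⟩
  · intro F hF a ha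
    obtain ⟨c₀, hS⟩ := Ent_ainv hA hF ha
    exact hdens _ ⟨c₀, hS⟩
  · -- the law of the minimum
    have hDe : ∀ e : ℤ, ∃ a b : ℝ, HasDs (Mm d m r e) 1 a ∧ HasDs (Mm d m r e) (-1) b ∧
        ((∃ i < d, m i < 0) → a = b) := by
      intro e
      obtain ⟨c₀, hS⟩ := Mm_ainv hA e
      exact hasDs_of_ainv hA hi hj hij' hS
    choose a b ha hb hab using hDe
    let D : ℤ → ℤ → ℝ := fun σ e => if σ = 1 then a e else b e
    have hD : ∀ σ : ℤ, (σ = 1 ∨ σ = -1) → ∀ e, HasDs (Mm d m r e) σ (D σ e) := by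
      intro σ hσ e
      rcases hσ with rfl | rfl
      · simp only [D, if_true]
        exact ha e
      · have : ¬ ((-1 : ℤ) = 1) := by norm_num
        simp only [D, if_neg this]
        exact hb e
    have hD' : ∀ σ : ℤ, (σ = 1 ∨ σ = -1) → ∀ e, HasD {n : ℤ | σ * n ∈ Mm d m r e} (D σ e) :=
      fun σ hσ e => (hasDs_iff hσ _ _).1 (hD σ hσ e)
    have hneg : ∀ e, e < 0 → Mm d m r e = ∅ := by
      intro e he
      ext x
      simp only [Set.mem_empty_iff_false, iff_false]
      rintro ⟨-, k, hk⟩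
      have := abs_nonneg ((Tm d m r)^[k] x)
      omega
    refine ⟨D, C, hC, ?_, ?_⟩
    · intro hn
      funext e
      have : ¬ ((-1 : ℤ) = 1) := by norm_num
      simp only [D, if_true, if_neg this]
      exact hab e hn
    · intro σ hσ
      have hD0 : ∀ e, 0 ≤ D σ e := fun e => (hD' σ hσ e).nonneg
      have hDneg : ∀ e, e < 0 → D σ e = 0 := by
        intro e he
        have h1 := hD' σ hσ e
        have h2 : HasD {n : ℤ | σ * n ∈ Mm d m r e} 0 := by
          refine tendsto_const_nhds.congr fun N => ?_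
          have h3 : cp {n : ℤ | σ * n ∈ Mm d m r e} N = 0 := by
            unfold cp
            rw [hneg e he]
            simp
          rw [h3]
          simp
        exact tendsto_nhds_unique h1 h2
      have hσσ : σ * σ = 1 := by rcases hσ with h | h <;> rw [h] <;> norm_num
      have habs : |(σ : ℝ)| = 1 := by rcases hσ with h | h <;> rw [h] <;> norm_num
      -- the capture bound on the side `σ`
      have hcapσ : ∀ (N : ℕ) (y : ℝ), 1 ≤ N → 1 ≤ y →
          cp {n : ℤ | ∀ e ∈ {e : ℤ | 0 ≤ e}, (e : ℝ) ≤ y → σ * n ∉ Mm d m r e} N ≤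
            C * N / y ^ c := by
        intro N y hN hy
        refine le_trans ?_ (hcap N y (by exact_mod_cast hN) hy)
        have hfin : {x : ℤ | |(x : ℝ)| ≤ (N : ℝ) ∧
            ∀ n : ℕ, y < |(((Tm d m r)^[n] x : ℤ) : ℝ)|}.Finite := by
          apply (Set.finite_Icc (-(N : ℤ)) N).subset
          rintro x ⟨hx, -⟩
          have h2 : |x| ≤ (N : ℤ) := by exact_mod_cast hx
          exact Set.mem_Icc.2 (abs_le.1 h2)
        unfold cp
        have hinj : Function.Injective (fun n : ℤ => σ * n) := by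
          intro a b hab
          have h1 : σ * (σ * a) = σ * (σ * b) := congrArg (σ * ·) hab
          rwa [← mul_assoc, ← mul_assoc, hσσ, one_mul, one_mul] at h1
        rw [← Set.ncard_image_of_injective _ hinj]
        have hsub : (fun n : ℤ => σ * n) '' {n : ℤ | n ∈ {n : ℤ | ∀ e ∈ {e : ℤ | 0 ≤ e},
            (e : ℝ) ≤ y → σ * n ∉ Mm d m r e} ∧ 1 ≤ n ∧ n ≤ (N : ℤ)} ⊆
            {x : ℤ | |(x : ℝ)| ≤ (N : ℝ) ∧ ∀ n : ℕ, y < |(((Tm d m r)^[n] x : ℤ) : ℝ)|} := by
          rintro x ⟨n, ⟨h1, h2, h3⟩, rfl⟩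
          simp only [Set.mem_ofPred_eq] at h1
          refine ⟨?_, fun k => ?_⟩
          · push_cast
            rw [abs_mul, habs, one_mul, abs_of_nonneg (by exact_mod_cast (by omega : 0 ≤ n))]
            exact_mod_cast h3
          · obtain ⟨e, he0, he⟩ := exists_Mm (d := d) (m := m) (r := r) (σ * n)
            have hey : y < (e : ℝ) := by
              by_contra hcon
              exact h1 e he0 (not_lt.1 hcon) he
            have h4 := he.1 k
            have h5 : (e : ℝ) ≤ ((|(Tm d m r)^[k] (σ * n)| : ℤ) : ℝ) := by exact_mod_cast h4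
            rw [Int.cast_abs] at h5
            exact lt_of_lt_of_le hey h5
        exact_mod_cast Set.ncard_le_ncard hsub hfin
      have hdd : ∀ e ∈ {e : ℤ | 0 ≤ e}, ∀ e' ∈ {e : ℤ | 0 ≤ e}, e ≠ e' → ∀ n : ℤ,
          n ∈ {n : ℤ | σ * n ∈ Mm d m r e} → n ∉ {n : ℤ | σ * n ∈ Mm d m r e'} :=
        fun e _ e' _ hne n hn => Mm_disj hne hn
      have hlaw := law_sum0 (E := {e : ℤ | 0 ≤ e}) (fun e he => he) (N₀ := (∅ : Set ℤ))
        (L := fun e => {n : ℤ | σ * n ∈ Mm d m r e}) (η := 0) (D := D σ) (C := C) (c := c) hc0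
        (by
          refine tendsto_const_nhds.congr fun N => ?_
          have h3 : cp (∅ : Set ℤ) N = 0 := by
            unfold cp
            simp
          rw [h3]
          simp)
        (fun e _ => hD' σ hσ e) (fun e _ n _ h => h) hdd
        (fun N y hN hy => by
          refine le_trans (cp_mono N fun n _ hn => ?_) (hcapσ N y hN hy)
          exact hn.2)
      rw [sub_zero] at hlaw
      have hsum : HasSum (D σ) 1 := by
        have h1 := hlaw.1
        rw [← hasSum_subtype_iff_of_support_subset (s := {e : ℤ | 0 ≤ e})]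
        · exact h1
        · intro e he
          by_contra hcon
          exact he (hDneg e (not_le.1 hcon))
      refine ⟨hD0, hDneg, hsum, ?_, ?_⟩
      · intro A hA0
        have h1 := law_union (E := {e : ℤ | 0 ≤ e}) (fun e he => he)
          (L := fun e => {n : ℤ | σ * n ∈ Mm d m r e}) (D := D σ) (C := C) (c := c) hc0
          (fun e _ => hD' σ hσ e) hdd
          (fun N y hN hy => by
            refine le_trans (cp_mono N fun n _ hn => ?_) (hcapσ N y hN hy)
            exact hn.2)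
          hlaw.1.summable (A := A) hA0
        have h2 := (hasDs_iff hσ (MinIn d m r A) (∑' e : A, D σ e)).2 (by
          refine h1.2.congr fun n _ => ?_
          simp only [Set.mem_iUnion, Set.mem_ofPred_eq, exists_prop]
          rfl)
        exact h2
      · intro y hy S hS
        by_cases hy' : ∀ e ∈ S, e ∈ {e : ℤ | 0 ≤ e}
        · exact hlaw.2 y hy S fun e he => ⟨hy' e he, hS e he⟩
        · exfalso
          push Not at hy'
          obtain ⟨e, he, hne⟩ := hy'
          have h1 := hS e he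
          have h2 : (0 : ℝ) < e := by linarith
          have h3 : 0 < e := by exact_mod_cast h2
          exact hne h3.le

end Pool.Agent.Results.MP_39d40e_nt.EntranceAndMinimumLaws
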