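import Pool.Agent.N671.DA.Win
import Pool.Agent.N578.TG.Dyadic
import Pool.Agent.Results.MP_39d40e_nt.PowerRate

/-!
# Generalised Collatz maps: ALL trajectories which start near functions of the denominators of good approximations

Let `T(x) = (m_i x - r_i) / d` for `x ≡ i mod d` be a generalised Collatz map with `gcd(m_i, d) = 1`,
`Λ = ∏ |m_i / d| ^ (1 / d) < 1` and some `|m_i| > d`. Let `α_1, …, α_M` be real numbers. We consider the natural numbers `q`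
with `‖q α_j - β_j‖ ≤ b q^(-τ)` for all `j`, `‖x‖` the distance to the nearest integer; for `β = 0`, `b = 1`, `τ = 1 / M` these
include the denominators of all best simultaneous approximations (the denominators of the convergents for `M = 1`), a very
sparse sequence. Let `G` be a function with steps bounded below by a positive constant and growth at most `v^D`, for example
`a v^D`. There is `c > 0`, larger than `1 - log_d (∑ |m_i / d| ^ s)` for all `s ≥ 0`, such that for all `α` in `ℝ^M` outside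
ONE set of Hausdorff dimension at most `(M + D max(1 - c δ, 0) + κ) / (1 + τ)`, for all admissible `r_i` and all `b`, for all
but finitely many such `q` EVERY integer `x` with `||x| - G q| ≤ q^κ` has a trajectory which enters `[-|x|^δ, |x|^δ]`. For
`τ = 1 / M` the bound is less than `M` if `D max(1 - c δ, 0) + κ < 1`; and so the statement holds for almost all `α`.
-/

set_option autoImplicit false

namespace Pool.Agent.Results.MP_39d40e_nt.SimultaneousApproximations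

open Finset
open Pool.Agent.N671.DA (Solves Expanding expanding_pow approx_good)
open PowerRate (T)

/-- the number of the integers up to `X` whose trajectory does not enter `[-|x|^δ, |x|^δ]` -/
lemma count {d : ℕ} {m r : ℕ → ℤ} {c C : ℝ} (hC0 : 0 < C)
    (hC : ∀ X y : ℝ, 1 ≤ X → 1 ≤ y →
      (Set.ncard {x : ℤ | |(x : ℝ)| ≤ X ∧ ∀ n : ℕ, y < |(((T d m r)^[n] x : ℤ) : ℝ)|} : ℝ) ≤ C * X / y ^ c)
    {δ : ℝ} (hδ : 0 < δ) (ε : ℝ) (hε : 0 < ε) : ∃ K : ℝ, ∀ X : ℝ, 1 ≤ X →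
    {x : ℤ | (True ∧ ¬ ∃ n : ℕ, |(((T d m r)^[n] x : ℤ) : ℝ)| ≤ |(x : ℝ)| ^ δ) ∧ |(x : ℝ)| ≤ X}.Finite ∧
    ({x : ℤ | (True ∧ ¬ ∃ n : ℕ, |(((T d m r)^[n] x : ℤ) : ℝ)| ≤ |(x : ℝ)| ^ δ) ∧ |(x : ℝ)| ≤ X}.ncard : ℝ) ≤
      K * X ^ (max (1 - c * δ) 0 + ε) := by
  have hs : 0 < max (1 - c * δ) 0 + ε := by
    have := le_max_right (1 - c * δ) 0
    linarith
  obtain ⟨K, hK0, hK⟩ := Pool.Agent.N578.TG.dyadic
    {x : ℤ | ¬ ∃ n : ℕ, |(((T d m r)^[n] x : ℤ) : ℝ)| ≤ |(x : ℝ)| ^ δ} (C := C * 2 ^ (c * δ)) hs (fun X hX => by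
      have hX1 : 1 ≤ X := by linarith
      have hX0 : 0 < X := by linarith
      have hy1 : 1 ≤ (X / 2) ^ δ := Real.one_le_rpow (by linarith) hδ.le
      have h2 := hC X ((X / 2) ^ δ) hX1 hy1
      have hfin : {x : ℤ | |(x : ℝ)| ≤ X ∧ ∀ n : ℕ, (X / 2) ^ δ < |(((T d m r)^[n] x : ℤ) : ℝ)|}.Finite := by
        apply (Set.finite_Icc (-⌊X⌋) ⌊X⌋).subset
        rintro x ⟨hx, _⟩
        rw [Set.mem_Icc]
        have h1 := abs_le.1 hx
        constructor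
        · have : -x ≤ ⌊X⌋ := Int.le_floor.2 (by push_cast; linarith)
          linarith
        · exact Int.le_floor.2 h1.2
      have hsub : {x : ℤ | x ∈ {x : ℤ | ¬ ∃ n : ℕ, |(((T d m r)^[n] x : ℤ) : ℝ)| ≤ |(x : ℝ)| ^ δ} ∧
          X / 2 < |(x : ℝ)| ∧ |(x : ℝ)| ≤ X} ⊆
          {x : ℤ | |(x : ℝ)| ≤ X ∧ ∀ n : ℕ, (X / 2) ^ δ < |(((T d m r)^[n] x : ℤ) : ℝ)|} := by
        rintro x ⟨g1, g2, g3⟩
        refine ⟨g3, fun n => ?_⟩
        simp only [Set.mem_ofPred_eq] at g1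
        push Not at g1
        exact lt_of_le_of_lt (Real.rpow_le_rpow (by linarith) g2.le hδ.le) (g1 n)
      have h3 : (((X / 2) ^ δ) ^ c) = X ^ (c * δ) / 2 ^ (c * δ) := by
        rw [← Real.rpow_mul (by linarith), mul_comm δ c, Real.div_rpow hX0.le (by norm_num)]
      have h4 : C * X / ((X / 2) ^ δ) ^ c = C * 2 ^ (c * δ) * X ^ (1 - c * δ) := by
        rw [h3, Real.rpow_sub hX0, Real.rpow_one]
        have := Real.rpow_pos_of_pos hX0 (c * δ)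
        have h5 : (0 : ℝ) < 2 ^ (c * δ) := by positivity
        field_simp
      calc _ ≤ (Set.ncard {x : ℤ | |(x : ℝ)| ≤ X ∧ ∀ n : ℕ, (X / 2) ^ δ < |(((T d m r)^[n] x : ℤ) : ℝ)|} : ℝ) := by
            exact_mod_cast Set.ncard_le_ncard hsub hfin
        _ ≤ C * X / ((X / 2) ^ δ) ^ c := h2
        _ = C * 2 ^ (c * δ) * X ^ (1 - c * δ) := h4
        _ ≤ C * 2 ^ (c * δ) * X ^ (max (1 - c * δ) 0 + ε) := by
          apply mul_le_mul_of_nonneg_left _ (by positivity)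
          apply Real.rpow_le_rpow_of_exponent_le hX1
          have := le_max_left (1 - c * δ) 0
          linarith)
  refine ⟨K, fun X hX => ?_⟩
  have e : {t : ℤ | (True ∧ ¬ ∃ n : ℕ, |(((T d m r)^[n] t : ℤ) : ℝ)| ≤ |(t : ℝ)| ^ δ) ∧ |(t : ℝ)| ≤ X} =
      {x : ℤ | x ∈ {x : ℤ | ¬ ∃ n : ℕ, |(((T d m r)^[n] x : ℤ) : ℝ)| ≤ |(x : ℝ)| ^ δ} ∧ |(x : ℝ)| ≤ X} := by
    ext t
    simp only [Set.mem_ofPred_eq, true_and]
  rw [e]
  exact hK X hX

/-- the map depends on `r_i`, `i < d`, only -/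
lemma T_congr {d : ℕ} (hd : 2 ≤ d) {m r r' : ℕ → ℤ} (h : ∀ i < d, r i = r' i) : T d m r = T d m r' := by
  funext x
  have h1 : (x % d).toNat < d := by
    have h2 := Int.emod_nonneg x (show (d : ℤ) ≠ 0 by omega)
    have h3 := Int.emod_lt_of_pos x (show (0 : ℤ) < d by omega)
    omega
  unfold T
  rw [h _ h1]

/-- **Trajectories near the denominators of good approximations.** Let `gcd(m_i, d) = 1` for all `i`,
`Λ = ∏ |m_i / d| ^ (1 / d) < 1` and some `|m_i| > d`. There is `c > 0`, depending only on `d` and the `m_i`, which is larger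
than `1 - log_d (∑ |m_i / d| ^ s)` for every real `s ≥ 0`, with the following property. Let `G` have steps `≥ a > 0` and
growth at most `v ^ D`. Let `δ > 0`, `0 ≤ κ ≤ 1`, `β` in `ℝ^M` and `τ > 0`. For all `α` in `ℝ^M` outside ONE set of Hausdorff
dimension at most `(M + D max(1 - c δ, 0) + κ) / (1 + τ)`, for all admissible `r_i` and all `b`, for all large `q` with
`‖q α_j - β_j‖ ≤ b q^(-τ)` for all `j`, EVERY integer `x` with `||x| - G q| ≤ q^κ` has a trajectory which enters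
`[-|x|^δ, |x|^δ]`. The functions `a v ^ D` with `a > 0`, `D ≥ 1` are examples of `G`. -/
theorem result :
    (∀ (d : ℕ) (m : ℕ → ℤ), 2 ≤ d → (∀ i < d, IsCoprime (m i) (d : ℤ)) → ∏ i ∈ range d, |(m i : ℝ) / d| < 1 →
      (∃ i < d, (d : ℤ) < |m i|) → ∃ c : ℝ, 0 < c ∧
      (∀ s : ℝ, 0 ≤ s → 1 - Real.log (∑ i ∈ range d, |(m i : ℝ) / d| ^ s) / Real.log d < c) ∧
      ∀ (G : ℕ → ℝ) (D : ℝ), Expanding G D → ∀ δ κ : ℝ, 0 < δ → 0 ≤ κ → κ ≤ 1 →
      ∀ (M : ℕ) (β : Fin M → ℝ) (τ : ℝ), 0 < τ →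
      ∃ E : Set (Fin M → ℝ), dimH E ≤ ENNReal.ofReal ((M + (D * max (1 - c * δ) 0 + κ)) / (1 + τ)) ∧
        ∀ α, α ∉ E → ∀ r : ℕ → ℤ, (∀ i < d, r i ≡ i * m i [ZMOD d]) → ∀ b : ℝ, ∃ Q : ℕ, ∀ q : ℕ, Q ≤ q →
          Solves α β q (b * (q : ℝ) ^ (-τ)) → ∀ x : ℤ, |(|(x : ℝ)|) - G q| ≤ (q : ℝ) ^ κ →
            ∃ n : ℕ, |(((T d m r)^[n] x : ℤ) : ℝ)| ≤ |(x : ℝ)| ^ δ) ∧
    ∀ a d : ℝ, 0 < a → 1 ≤ d → Expanding (fun v => a * (v : ℝ) ^ d) d := by
  classical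
  refine ⟨fun d m hd hm hL hb => ?_, fun α d hα hd => expanding_pow hα hd⟩
  obtain ⟨c, hc0, hc, hr⟩ := PowerRate.result d hd m hm hL hb
  refine ⟨c, hc0, hc, fun G D hG δ κ hδ hκ hκ1 M β τ hτ => ?_⟩
  -- the extension of a finite sequence
  obtain ⟨ex, hex⟩ : ∃ ex : (Fin d → ℤ) → ℕ → ℤ, ex = fun ρ i => if h : i < d then ρ ⟨i, h⟩ else 0 := ⟨_, rfl⟩
  have key : ∀ ρ : Fin d → ℤ, ∃ E : Set (Fin M → ℝ),
      dimH E ≤ ENNReal.ofReal ((M + (D * max (1 - c * δ) 0 + κ)) / (1 + τ)) ∧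
      ((∀ i < d, ex ρ i ≡ i * m i [ZMOD d]) → ∀ α, α ∉ E → ∀ b : ℝ, ∃ Q : ℕ, ∀ q : ℕ, Q ≤ q →
          Solves α β q (b * (q : ℝ) ^ (-τ)) → ∀ x : ℤ, |(|(x : ℝ)|) - G q| ≤ (q : ℝ) ^ κ →
            ∃ n : ℕ, |(((T d m (ex ρ))^[n] x : ℤ) : ℝ)| ≤ |(x : ℝ)| ^ δ) := by
    intro ρ
    by_cases hadm : ∀ i < d, ex ρ i ≡ i * m i [ZMOD d]
    · obtain ⟨C, hC0, hC⟩ := hr (ex ρ) hadm
      obtain ⟨E, hE, hE2⟩ := approx_good (fun _ : ℤ => True)
        (fun x : ℤ => ∃ n : ℕ, |(((T d m (ex ρ))^[n] x : ℤ) : ℝ)| ≤ |(x : ℝ)| ^ δ)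
        (fun x : ℤ => |(x : ℝ)|) hG (s := max (1 - c * δ) 0) (κ := κ) (le_max_right _ _) hκ hκ1
        (fun ε hε => count hC0 hC hδ ε hε) β hτ
      refine ⟨E, hE, fun _ α hα b => ?_⟩
      obtain ⟨Q, hQ⟩ := hE2 α hα b
      exact ⟨Q, fun q hq h1 x hx => hQ q hq h1 x trivial hx⟩
    · exact ⟨∅, by simp, fun h => absurd h hadm⟩
  choose E hE hE2 using key
  refine ⟨⋃ ρ, E ρ, ?_, fun α hα r hadm b => ?_⟩
  · rw [dimH_iUnion]
    exact iSup_le hE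
  · have h1 : ∀ i < d, r i = ex (fun i : Fin d => r i) i := by
      intro i hi
      rw [hex]
      simp only [hi, dif_pos]
    rw [T_congr hd h1]
    refine hE2 (fun i : Fin d => r i) (fun i hi => ?_) α (fun h => hα (Set.mem_iUnion.2 ⟨_, h⟩)) b
    rw [← h1 i hi]
    exact hadm i hi

end Pool.Agent.Results.MP_39d40e_nt.SimultaneousApproximations
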