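import Pool.Agent.N685.FD.P8
import Pool.Agent.N685.FD.Fbl
import Pool.Agent.N685.FD.Fbt
import Pool.Agent.N685.FD.Tbu

/-!
The predecessor tree of EVERY integer under the maps `T_{5,b}` (in particular `T_5`) on the integers of
both signs, at path level: exact exponents, uniformly in the integer, for the numbers of predecessors
whose trajectory follows a given piecewise linear profile down to it.
-/

set_option autoImplicit false

namespace Pool.Agent.Results.MP_39d40e_nt.TreesOfTFive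

/-- The map `T_{5,b}` on the integers; `T_5` is the case `b = 1`. -/
def T (b x : ℤ) : ℤ := if x % 2 = 0 then x / 2 else (5 * x + b) / 2

/-- The constant `η = 0.6509…` with `2^η = 1 + 5^(η-1)`. -/
def IsEta (η : ℝ) : Prop := 0.6509 < η ∧ η < 0.65095 ∧ (2 : ℝ) ^ η = 1 + 5 ^ (η - 1)

/-- The critical slope `log 2 - (1 - 2^(-η)) log 5 = 0.10…`. -/
noncomputable def critical (η : ℝ) : ℝ := Real.log 2 - (1 - (2 : ℝ) ^ (-η)) * Real.log 5

/-- The frequency of the odd terms on the slope `-a`. -/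
noncomputable def rho (a : ℝ) : ℝ := (Real.log 2 - a) / Real.log 5

/-- `F(a) = H(ρ(a)) - ρ(a) log 5`, `H` the binary entropy function (natural logarithms). -/
noncomputable def F (a : ℝ) : ℝ := Real.binEntropy (rho a) - rho a * Real.log 5

/-- The profile of a list of pairs `(a, τ)`: the continuous function which starts from the height `u`,
has the slope `-a` during the time `τ`, for the successive pairs, and is constant afterwards. -/
noncomputable def profile : List (ℝ × ℝ) → ℝ → ℝ → ℝ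
  | [], u, _ => u
  | q :: L, u, t => if t ≤ q.2 then u - q.1 * t else profile L (u - q.1 * q.2) (t - q.2)

/-- The total duration `∑ τ_i`. -/
noncomputable def duration (L : List (ℝ × ℝ)) : ℝ := (L.map fun q => q.2).sum

/-- The total descent `∑ a_i τ_i`. -/
noncomputable def descent (L : List (ℝ × ℝ)) : ℝ := (L.map fun q => q.1 * q.2).sum

/-- The growth `∑ τ_i F(a_i)`. -/
noncomputable def growth (L : List (ℝ × ℝ)) : ℝ := (L.map fun q => q.2 * F q.1).sum

/-- The predecessors of `c` under `T_{5,b}` on the side `s`, along the profile: the integers `n` with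
`T^K(n) = c` for some `K` with `|K - X ∑ τ_i| ≤ δ X`, such that for all `0 ≤ j ≤ K` the term `T^j(n)` has
the sign of `s` and `|log |T^j(n)| - log |c| - X φ(j/X)| ≤ δ X`, where `φ` is the profile which descends
from the height `∑ a_i τ_i` to `0`. -/
def Predecessors (b s : ℤ) (L : List (ℝ × ℝ)) (δ X : ℝ) (c : ℤ) : Set ℤ :=
  {n : ℤ | ∃ K : ℕ, |(K : ℝ) - duration L * X| ≤ δ * X ∧ (T b)^[K] n = c ∧
    ∀ j : ℕ, j ≤ K → 0 < s * (T b)^[j] n ∧
      |Real.log |(((T b)^[j] n : ℤ) : ℝ)| - Real.log |(c : ℝ)| -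
        profile L (descent L) (j / X) * X| ≤ δ * X}

open Pool.Agent.N685.FD

theorem T_eq (b : ℤ) : T b = Pool.Agent.N685.FD.T 5 b := by
  funext x
  unfold T Pool.Agent.N685.FD.T
  norm_num

theorem profile_eq : ∀ (L : List (ℝ × ℝ)) (u t : ℝ), profile L u t = pro L u t
  | [], _, _ => rfl
  | q :: L, u, t => by
      unfold profile pro
      rw [profile_eq L]

theorem pred_eq (b s : ℤ) (L : List (ℝ × ℝ)) (δ X : ℝ) (c : ℤ) :
    Predecessors b s L δ X c = P8.PS 5 b s L δ X c := by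
  unfold Predecessors P8.PS
  rw [T_eq]
  simp only [profile_eq]
  rfl

theorem rho_eq (a : ℝ) : rho a = fr 5 a := by
  unfold rho fr
  norm_num

theorem F_eq (a : ℝ) : F a = Fp 5 (fr 5 a) := by
  unfold F Fp
  rw [rho_eq]
  norm_num

theorem growth_eq (L : List (ℝ × ℝ)) : growth L = gr 5 L := by
  unfold growth gr
  simp only [F_eq]

theorem adm {b : ℤ} (hb : Odd b) (hb5 : ¬ (5 : ℤ) ∣ b) : Adm 5 b := by
  refine ⟨Or.inr rfl, ?_, by exact_mod_cast hb5⟩
  obtain ⟨c, hc⟩ := hb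
  omega

/-- every cycle other than `{0}` has an element which is prime to `5` and not `0` -/
theorem cycle_elt {b : ℤ} (hb : Odd b) (hb5 : ¬ (5 : ℤ) ∣ b) {y : ℤ} (hy : y ≠ 0) {p : ℕ} (hp : 1 ≤ p)
    (h : (T b)^[p] y = y) : ∃ j : ℕ, (T b)^[j] y ≠ 0 ∧ ¬ (5 : ℤ) ∣ (T b)^[j] y := by
  have h1 : ∃ j < p, (T b)^[j] y % 2 ≠ 0 := by
    by_contra hcon
    push Not at hcon
    have h2 : ∀ j ≤ p, 2 ^ j * (T b)^[j] y = y := by
      intro j
      induction j with
      | zero => intro _; simp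
      | succ j ih =>
        intro hj
        have h3 := ih (by omega)
        have h4 := hcon j (by omega)
        rw [Function.iterate_succ_apply']
        unfold T at h4 ⊢
        rw [if_pos h4]
        obtain ⟨c, hc⟩ : (2 : ℤ) ∣ (fun x => if x % 2 = 0 then x / 2 else (5 * x + b) / 2)^[j] y :=
          Int.dvd_of_emod_eq_zero h4
        unfold T at h3
        rw [hc] at h3 ⊢
        rw [Int.mul_ediv_cancel_left _ (by norm_num : (2 : ℤ) ≠ 0)]
        rw [← h3]
        ring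
    have h3 := h2 p le_rfl
    rw [h] at h3
    have h4 : (2 ^ p - 1 : ℤ) * y = 0 := by linarith
    rcases mul_eq_zero.1 h4 with h5 | h5
    · have h6 : (2 : ℤ) ^ 1 ≤ 2 ^ p := pow_le_pow_right₀ (by norm_num) hp
      linarith
    · exact hy h5
  obtain ⟨j, _, hj⟩ := h1
  have h2 : 2 * (T b)^[j + 1] y = 5 * (T b)^[j] y + b := by
    rw [Function.iterate_succ_apply']
    obtain ⟨c, hc⟩ := hb
    show 2 * T b ((T b)^[j] y) = _
    generalize (T b)^[j] y = z at hj ⊢
    unfold T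
    rw [if_neg hj]
    omega
  have h3 : ¬ (5 : ℤ) ∣ (T b)^[j + 1] y := by
    rintro ⟨c, hc⟩
    apply hb5
    rw [hc] at h2
    exact ⟨2 * c - (T b)^[j] y, by linarith⟩
  refine ⟨j + 1, fun h4 => h3 (by rw [h4]; exact dvd_zero _), h3⟩

/-- Let `b` be odd and prime to `5`, `T = T_{5,b}`, and let `s` be one of the signs `1`, `-1`.

(1) Let `0 < a_i < log 2`, `F(a_i) > 0` and `τ_i > 0` for all pairs `(a_i, τ_i)` of the list `L`. For all
`δ, ε > 0` there is `X₀` such that for all `X ≥ X₀`, EVERY integer `c ≠ 0` of the sign of `s` and not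
divisible by `5` has at least `exp ((∑ τ_i F(a_i) - ε) X)` predecessors along the profile.

(2) Let `critical η ≤ a_i < log 2` and `τ_i > 0` for all pairs. For every `ε > 0` there is `δ₀ > 0` such
that for all `0 < δ ≤ δ₀` there is `X₀` such that for all `X ≥ X₀`, EVERY integer `c ≠ 0` of the sign of
`s` has at most `exp ((∑ τ_i F(a_i) + ε) X)` predecessors along the profile.

(3) `F(a) > 0` for all `a` of the range in (2), and the cycle of every periodic point `y ≠ 0` of `T` has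
an element `c ≠ 0` not divisible by `5`, so that both bounds hold for every cycle other than `{0}`,
uniformly in the cycle. -/
theorem result : (∃ η : ℝ, IsEta η) ∧ ∀ η : ℝ, IsEta η → ∀ b : ℤ, Odd b → ¬ (5 : ℤ) ∣ b →
    (∀ s : ℤ, s = 1 ∨ s = -1 → ∀ L : List (ℝ × ℝ),
      (∀ q ∈ L, 0 < q.1 ∧ q.1 < Real.log 2 ∧ 0 < q.2 ∧ 0 < F q.1) →
      ∀ δ ε : ℝ, 0 < δ → 0 < ε → ∃ X₀ : ℝ, ∀ X : ℝ, X₀ ≤ X → ∀ c : ℤ, 0 < s * c → ¬ (5 : ℤ) ∣ c →
        Real.exp ((growth L - ε) * X) ≤ (Set.ncard (Predecessors b s L δ X c) : ℝ)) ∧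
    (∀ s : ℤ, s = 1 ∨ s = -1 → ∀ L : List (ℝ × ℝ),
      (∀ q ∈ L, critical η ≤ q.1 ∧ q.1 < Real.log 2 ∧ 0 < q.2) →
      ∀ ε : ℝ, 0 < ε → ∃ δ₀ : ℝ, 0 < δ₀ ∧ ∀ δ : ℝ, 0 < δ → δ ≤ δ₀ →
        ∃ X₀ : ℝ, ∀ X : ℝ, X₀ ≤ X → ∀ c : ℤ, 0 < s * c → (Predecessors b s L δ X c).Finite ∧
          (Set.ncard (Predecessors b s L δ X c) : ℝ) ≤ Real.exp ((growth L + ε) * X)) ∧
    (0.095 < critical η ∧ ∀ a : ℝ, critical η ≤ a → a < Real.log 2 → 0 < F a) ∧
    (∀ (y : ℤ) (p : ℕ), y ≠ 0 → 1 ≤ p → (T b)^[p] y = y →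
      ∃ j : ℕ, (T b)^[j] y ≠ 0 ∧ ¬ (5 : ℤ) ∣ (T b)^[j] y) := by
  refine ⟨DG.exists_eta5, fun η hη b hb hb5 => ?_⟩
  have hη' : Pool.Agent.N685.FD.IsEta η := hη
  have hA := adm hb hb5
  have hc0 : 0.095 < critical η ∧ critical η < Real.log 2 := Five.slope_bounds hη'
  have hk : 1 / Five.kap η = critical η := by
    unfold Five.kap critical
    rw [one_div_one_div]
  have hpos : ∀ a : ℝ, critical η ≤ a → a < Real.log 2 → 0 < F a := by
    intro a h1 h2
    have ha : 0 < a := by linarith [hc0.1]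
    rw [F_eq, P8.fr_five ha]
    refine Five.Fp_pos hη' (one_div_lt_one_div_of_lt ha h2) ?_
    rw [← hk] at h1
    rw [div_le_iff₀ ha]
    rw [div_le_iff₀ (Five.kap_pos hη')] at h1
    linarith
  refine ⟨fun s hs L hL δ ε hδ hε => ?_, fun s hs L hL ε hε => ?_, ⟨hc0.1, hpos⟩,
    fun y p hy hp h => cycle_elt hb hb5 hy hp h⟩
  · simp only [pred_eq, growth_eq]
    exact P8.lower t_FBL t_FBT hA hs (fun q hq => by
      obtain ⟨h1, h2, h3, h4⟩ := hL q hq
      rw [F_eq] at h4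
      exact ⟨h1, h2, h3, h4⟩) hδ hε
  · simp only [pred_eq, growth_eq]
    obtain ⟨δ₀, h1, h2⟩ := P8.upper (p := 5) (d := b) t_TBU hA hs (L := L) (fun q hq => by
      obtain ⟨h1, h2, h3⟩ := hL q hq
      refine ⟨by linarith [hc0.1], h2, h3, fun ε' hε' => ?_⟩
      exact P8.tight5 hη' (by rw [hk]; exact h1) h2 hε') hε
    refine ⟨δ₀, h1, fun δ hδ hδ1 => ?_⟩
    obtain ⟨X₀, h3⟩ := h2 δ hδ hδ1
    exact ⟨X₀, fun X hX c hc => ⟨P8.finite, h3 X hX c hc⟩⟩

end Pool.Agent.Results.MP_39d40e_nt.TreesOfTFive
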